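import Mathlib

set_option autoImplicit false

/-!
# The exponent of a product of two `2`-groups is not bounded by the product of the exponents

For every `n` there is a finite `2`-group `G = A B` with `exp A = 4 ^ n`, `exp B = 2 ^ n` and
`exp G = 16 ^ n = (exp A * exp B) ^ (4 / 3)`.
-/

namespace Pool.Agent.Results.MP_87fd0b_al.ExceedsProduct

open RegularWreathProduct

section wreath

variable {D Q : Type} [Group D] [Group Q]

/-- The subgroup `A ≀ A'` of the regular wreath product `D ≀ Q`. -/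
def wrSub (A : Subgroup D) (A' : Subgroup Q) : Subgroup (D ≀ᵣ Q) where
  carrier := {w | (∀ x, w.left x ∈ A) ∧ w.right ∈ A'}
  mul_mem' := by
    rintro w v ⟨h1, h2⟩ ⟨h3, h4⟩
    exact ⟨fun x => A.mul_mem (h1 x) (h3 _), A'.mul_mem h2 h4⟩
  one_mem' := ⟨fun _ => A.one_mem, A'.one_mem⟩
  inv_mem' := by
    rintro w ⟨h1, h2⟩
    exact ⟨fun x => A.inv_mem (h1 _), A'.inv_mem h2⟩

theorem mem_wrSub (A : Subgroup D) (A' : Subgroup Q) (w : D ≀ᵣ Q) :
    w ∈ wrSub A A' ↔ (∀ x, w.left x ∈ A) ∧ w.right ∈ A' := Iff.rfl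

theorem pow_right (w : D ≀ᵣ Q) (n : ℕ) : (w ^ n).right = w.right ^ n :=
  map_pow (rightHom : D ≀ᵣ Q →* Q) w n

theorem pow_left_of_right_one (w : D ≀ᵣ Q) (h : w.right = 1) (n : ℕ) (x : Q) :
    (w ^ n).left x = (w.left x) ^ n := by
  induction n with
  | zero => simp
  | succ n ih =>
    rw [pow_succ, mul_left, Pi.mul_apply, ih, pow_right, h, one_pow, inv_one, one_mul, pow_succ]

theorem wr_pow_eq_one (A : Subgroup D) (A' : Subgroup Q) (m m' : ℕ)
    (hA : ∀ a ∈ A, a ^ m = 1) (hA' : ∀ a ∈ A', a ^ m' = 1) (w : D ≀ᵣ Q) (hw : w ∈ wrSub A A') :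
    w ^ (m * m') = 1 := by
  rw [pow_mul']
  have h1 : (w ^ m').right = 1 := by rw [pow_right]; exact hA' _ hw.2
  have h2 : w ^ m' ∈ wrSub A A' := Subgroup.pow_mem _ hw _
  apply RegularWreathProduct.ext
  · funext x
    rw [pow_left_of_right_one _ h1]
    exact hA _ (h2.1 x)
  · rw [pow_right, h1, one_pow]; rfl

open Classical in
/-- The element `(d at 1, q)` of the wreath product. -/
noncomputable def elt (d : D) (q : Q) : D ≀ᵣ Q := ⟨fun x => if x = 1 then d else 1, q⟩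

theorem elt_pow_left (d : D) (q : Q) (n : ℕ) (x : Q) (hx : ∀ i < n, x ≠ q ^ i) :
    ((elt d q) ^ n).left x = 1 := by
  induction n with
  | zero => simp
  | succ n ih =>
    rw [pow_succ, mul_left, Pi.mul_apply, ih (fun i hi => hx i (by omega)), pow_right]
    have : ((elt d q).right ^ n)⁻¹ * x ≠ 1 := by
      intro h
      exact hx n (by omega) (by rw [inv_mul_eq_one] at h; exact h.symm)
    simp only [elt, one_mul] at this ⊢
    rw [if_neg this]

theorem elt_pow_order (d : D) (q : Q) (hq : 0 < orderOf q) :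
    ((elt d q) ^ (orderOf q)).left 1 = d := by
  obtain ⟨k, hk⟩ : ∃ k, orderOf q = k + 1 := ⟨orderOf q - 1, by omega⟩
  rw [hk, pow_succ', mul_left, Pi.mul_apply, elt_pow_left]
  · simp [elt]
  · intro i hi h
    have h2 : q ^ (i + 1) = 1 := by
      rw [pow_succ']
      have h' : q⁻¹ * 1 = q ^ i := h
      rw [← h', mul_one, mul_inv_cancel]
    exact pow_ne_one_of_lt_orderOf (by omega) (by omega) h2

theorem elt_order_dvd (d : D) (q : Q) (hq : 0 < orderOf q) (N : ℕ) (hN : (elt d q) ^ N = 1) :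
    orderOf d * orderOf q ∣ N := by
  have h1 : q ^ N = 1 := by
    have := congrArg RegularWreathProduct.right hN
    rw [pow_right] at this
    exact this
  obtain ⟨k, hk⟩ := orderOf_dvd_of_pow_eq_one h1
  have h2 : ((elt d q) ^ (orderOf q)).right = 1 := by
    rw [pow_right]; exact pow_orderOf_eq_one q
  have h3 : d ^ k = 1 := by
    have h4 := pow_left_of_right_one _ h2 k 1
    rw [← pow_mul, ← hk, hN, elt_pow_order d q hq] at h4
    exact h4.symm
  rw [hk, mul_comm]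
  exact Nat.mul_dvd_mul_left _ (orderOf_dvd_of_pow_eq_one h3)

end wreath

/-- There is a finite `2`-group `G = A B` with `exp A = a`, `exp B = b`, `exp G = c`. -/
def Good (a b c : ℕ) : Prop :=
  ∃ (G : Type) (_ : Group G) (_ : Finite G) (A B : Subgroup G), IsPGroup 2 G ∧
    (∀ g : G, ∃ x ∈ A, ∃ y ∈ B, g = x * y) ∧
    ((∀ x ∈ A, x ^ a = 1) ∧ ∃ x ∈ A, orderOf x = a) ∧
    ((∀ x ∈ B, x ^ b = 1) ∧ ∃ x ∈ B, orderOf x = b) ∧
    ((∀ x : G, x ^ c = 1) ∧ ∃ x : G, orderOf x = c)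

theorem exp_wr {D Q : Type} [Group D] [Group Q] [Finite Q] (A : Subgroup D) (A' : Subgroup Q)
    (m m' : ℕ) (hA : (∀ x ∈ A, x ^ m = 1) ∧ ∃ x ∈ A, orderOf x = m)
    (hA' : (∀ x ∈ A', x ^ m' = 1) ∧ ∃ x ∈ A', orderOf x = m') :
    (∀ x ∈ wrSub A A', x ^ (m * m') = 1) ∧ ∃ x ∈ wrSub A A', orderOf x = m * m' := by
  obtain ⟨h1, d, hd, hdm⟩ := hA
  obtain ⟨h2, q, hq, hqm⟩ := hA'
  refine ⟨wr_pow_eq_one A A' m m' h1 h2, elt d q, ?_, ?_⟩
  · refine ⟨fun x => ?_, hq⟩
    by_cases hx : x = 1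
    · simp [elt, hx, hd]
    · simp [elt, hx]
  · have hmem : elt d q ∈ wrSub A A' := by
      refine ⟨fun x => ?_, hq⟩
      by_cases hx : x = 1
      · simp [elt, hx, hd]
      · simp [elt, hx]
    apply Nat.dvd_antisymm
    · exact orderOf_dvd_of_pow_eq_one (wr_pow_eq_one A A' m m' h1 h2 _ hmem)
    · have := elt_order_dvd d q (orderOf_pos q) _ (pow_orderOf_eq_one (elt d q))
      rwa [hdm, hqm] at this

theorem good_mul {a b c a' b' c' : ℕ} (h : Good a b c) (h' : Good a' b' c') :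
    Good (a * a') (b * b') (c * c') := by
  obtain ⟨D, _, _, A, B, hp, hf, hA, hB, hG⟩ := h
  obtain ⟨Q, _, _, A', B', hp', hf', hA', hB', hG'⟩ := h'
  refine ⟨D ≀ᵣ Q, inferInstance, inferInstance, wrSub A A', wrSub B B', ?_, ?_,
    exp_wr A A' a a' hA hA', exp_wr B B' b b' hB hB', ?_⟩
  · have : Fact (Nat.Prime 2) := ⟨Nat.prime_two⟩
    rw [IsPGroup.iff_card] at hp hp' ⊢
    obtain ⟨i, hi⟩ := hp
    obtain ⟨j, hj⟩ := hp'
    refine ⟨i * 2 ^ j + j, ?_⟩
    rw [RegularWreathProduct.card, hi, hj, ← pow_mul, ← pow_add]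
  · intro w
    choose α hα β hβ hαβ using fun x => hf (w.left x)
    obtain ⟨s, hs, t, ht, hst⟩ := hf' w.right
    refine ⟨⟨α, s⟩, ⟨hα, hs⟩, ⟨fun x => β (s * x), t⟩, ⟨fun x => hβ _, ht⟩, ?_⟩
    apply RegularWreathProduct.ext
    · funext x
      rw [mul_left, Pi.mul_apply, hαβ x]
      simp
    · exact hst
  · have h1 := exp_wr (⊤ : Subgroup D) (⊤ : Subgroup Q) c c'
      ⟨fun x _ => hG.1 x, hG.2.imp fun x hx => ⟨trivial, hx⟩⟩
      ⟨fun x _ => hG'.1 x, hG'.2.imp fun x hx => ⟨trivial, hx⟩⟩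
    refine ⟨fun x => h1.1 x ⟨fun _ => trivial, trivial⟩, ?_⟩
    obtain ⟨x, _, hx⟩ := h1.2
    exact ⟨x, hx⟩

/-! ### The example with exponents `4`, `2` and `16` -/

/-- The cyclic group of order `4`. -/
abbrev C4 := Multiplicative (ZMod 4)
/-- The cyclic group of order `2`. -/
abbrev C2 := Multiplicative (ZMod 2)
/-- The group `C₄ ≀ C₂` of order `32`. -/
abbrev G0 := C4 ≀ᵣ C2

/-- The nontrivial element of `C₂`. -/
def sg : C2 := Multiplicative.ofAdd 1
/-- The involution of the top group of `C₄ ≀ C₂`. -/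
def b0 : G0 := ⟨1, sg⟩

theorem C2_cases (r : C2) : r = 1 ∨ r = sg := by revert r; decide

theorem C2_sq (r : C2) : r * r = 1 := by revert r; decide

theorem C4_pow (r : C4) : r ^ 4 = 1 := by revert r; decide

theorem b0_sq : b0 * b0 = 1 := by
  apply RegularWreathProduct.ext
  · funext x; simp [b0]
  · simp only [mul_right, b0]; exact C2_sq _

theorem b0_inv : b0⁻¹ = b0 := inv_eq_of_mul_eq_one_left b0_sq

/-- The base group of `C₄ ≀ C₂`. -/
abbrev A0 : Subgroup G0 := (rightHom : G0 →* C2).ker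

theorem mem_A0 (g : G0) : g ∈ A0 ↔ g.right = 1 := Iff.rfl

/-- The homomorphism `C₄ ≀ C₂ → C₄`. -/
def dl : G0 →* C4 where
  toFun g := g.left 1 * g.left sg
  map_one' := by simp
  map_mul' g h := by
    rcases C2_cases g.right with hr | hr
    · simp only [mul_left, Pi.mul_apply, hr, inv_one, one_mul]
      exact mul_mul_mul_comm _ _ _ _
    · have e1 : sg⁻¹ * 1 = sg := by decide
      have e2 : sg⁻¹ * sg = 1 := by decide
      simp only [mul_left, Pi.mul_apply, hr, e1, e2]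
      rw [mul_mul_mul_comm, mul_comm (h.left sg)]

/-- The normal closure of the top group. -/
abbrev H0 : Subgroup G0 := dl.ker

theorem b0_mem : b0 ∈ H0 := by
  rw [MonoidHom.mem_ker]
  simp [dl, b0]

/-- Functions from `C₄ ≀ C₂` to `C₂`. -/
abbrev Fn := G0 → C2

/-- The norm of `a`. -/
def Nm (a : G0) : Fn →* Fn where
  toFun φ := fun x => φ x * φ (a * x) * φ (a ^ 2 * x) * φ (a ^ 3 * x)
  map_one' := by funext x; simp
  map_mul' φ ψ := by
    funext x
    simp only [Pi.mul_apply]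
    rw [mul_mul_mul_comm (φ x), mul_mul_mul_comm (φ x * φ (a * x)),
      mul_mul_mul_comm (φ x * φ (a * x) * φ (a ^ 2 * x))]

/-- Left translation. -/
def sh (g : G0) : Fn →* Fn where
  toFun φ := fun x => φ (g⁻¹ * x)
  map_one' := rfl
  map_mul' _ _ := rfl

/-- The functions all of whose norms along the base group vanish. -/
def K : Subgroup Fn := ⨅ a : A0, (Nm a).ker

theorem mem_K (φ : Fn) : φ ∈ K ↔ ∀ a ∈ A0, ∀ x, φ x * φ (a * x) * φ (a ^ 2 * x) * φ (a ^ 3 * x) = 1 := by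
  rw [K, Subgroup.mem_iInf]
  constructor
  · intro h a ha x
    exact congrFun (h ⟨a, ha⟩) x
  · intro h a
    rw [MonoidHom.mem_ker]
    funext x
    exact h a a.2 x

/-- The map `φ ↦ φ * h⁻¹ φ`. -/
def Tm (h : G0) : Fn →* Fn := MonoidHom.id Fn * sh h⁻¹

theorem Tm_apply (h : G0) (φ : Fn) (x : G0) : Tm h φ x = φ x * φ (h * x) := by
  simp [Tm, sh]

/-- The functions whose class modulo `K` is invariant under `H0`. -/
def V : Subgroup Fn := ⨅ h : H0, K.comap (Tm h)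

theorem mem_V (φ : Fn) : φ ∈ V ↔ ∀ h ∈ H0, Tm h φ ∈ K := by
  rw [V, Subgroup.mem_iInf]
  exact ⟨fun h a ha => h ⟨a, ha⟩, fun h a => h a a.2⟩

theorem K_sh (g : G0) (φ : Fn) (hφ : φ ∈ K) : sh g φ ∈ K := by
  rw [mem_K] at hφ ⊢
  intro a ha x
  have h := hφ (g⁻¹ * a * g) (by
    have := (inferInstance : (A0).Normal).conj_mem a ha g⁻¹
    simpa using this) (g⁻¹ * x)
  have e1 : g⁻¹ * a * g * (g⁻¹ * x) = g⁻¹ * (a * x) := by group
  have e2 : (g⁻¹ * a * g) ^ 2 * (g⁻¹ * x) = g⁻¹ * (a ^ 2 * x) := by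
    rw [pow_two, pow_two]; group
  have e3 : (g⁻¹ * a * g) ^ 3 * (g⁻¹ * x) = g⁻¹ * (a ^ 3 * x) := by
    rw [pow_succ, pow_two, pow_succ, pow_two]; group
  rw [e1, e2, e3] at h
  exact h

theorem V_sh (g : G0) (φ : Fn) (hφ : φ ∈ V) : sh g φ ∈ V := by
  rw [mem_V] at hφ ⊢
  intro h hh
  have h1 := K_sh g _ (hφ (g⁻¹ * h * g) (by
    have := (inferInstance : (H0).Normal).conj_mem h hh g⁻¹
    simpa using this))
  have : Tm h (sh g φ) = sh g (Tm (g⁻¹ * h * g) φ) := by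
    funext x
    rw [Tm_apply]
    show φ (g⁻¹ * x) * φ (g⁻¹ * (h * x)) = Tm (g⁻¹ * h * g) φ (g⁻¹ * x)
    rw [Tm_apply]
    congr 2
    group
  rw [this]
  exact h1

theorem K_le_V : K ≤ V := by
  intro φ hφ
  rw [mem_V]
  intro h _
  have : Tm h φ = φ * sh h⁻¹ φ := rfl
  rw [this]
  exact K.mul_mem hφ (K_sh _ _ hφ)

/-- The big group. -/
def E : Subgroup (C2 ≀ᵣ G0) where
  carrier := {w | w.left ∈ V}
  mul_mem' := by
    intro w v hw hv
    exact V.mul_mem hw (V_sh w.right _ hv)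
  one_mem' := V.one_mem
  inv_mem' := by
    intro w hw
    have h := V.inv_mem (V_sh w.right⁻¹ _ hw)
    have : (w⁻¹).left = (sh w.right⁻¹ w.left)⁻¹ := by
      funext x
      simp [sh]
    show (w⁻¹).left ∈ V
    rw [this]
    exact h

/-- The first factor. -/
def AE : Subgroup (C2 ≀ᵣ G0) where
  carrier := {w | w.left ∈ K ∧ w.right ∈ A0}
  mul_mem' := by
    rintro w v ⟨hw, hw'⟩ ⟨hv, hv'⟩
    exact ⟨K.mul_mem hw (K_sh w.right _ hv), (A0).mul_mem hw' hv'⟩
  one_mem' := ⟨K.one_mem, (A0).one_mem⟩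
  inv_mem' := by
    rintro w ⟨hw, hw'⟩
    have h := K.inv_mem (K_sh w.right⁻¹ _ hw)
    have : (w⁻¹).left = (sh w.right⁻¹ w.left)⁻¹ := by
      funext x
      simp [sh]
    refine ⟨?_, (A0).inv_mem hw'⟩
    rw [this]
    exact h

/-- The second factor. -/
def BE : Subgroup (C2 ≀ᵣ G0) where
  carrier := {w | w.left ∈ V ∧ (∀ x, w.left (b0 * x) = w.left x) ∧ (w.right = 1 ∨ w.right = b0)}
  mul_mem' := by
    rintro w v ⟨hw, hw', hw''⟩ ⟨hv, hv', hv''⟩
    refine ⟨V.mul_mem hw (V_sh w.right _ hv), fun x => ?_, ?_⟩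
    · simp only [mul_left, Pi.mul_apply]
      rw [hw']
      rcases hw'' with h | h
      · simp [h, hv']
      · rw [h, b0_inv, hv']
    · rcases hw'' with h | h <;> rcases hv'' with h' | h' <;> simp [h, h', b0_sq]
  one_mem' := ⟨V.one_mem, fun _ => rfl, Or.inl rfl⟩
  inv_mem' := by
    rintro w ⟨hw, hw', hw''⟩
    have h := V.inv_mem (V_sh w.right⁻¹ _ hw)
    have e : (w⁻¹).left = (sh w.right⁻¹ w.left)⁻¹ := by
      funext x
      simp [sh]
    refine ⟨?_, fun x => ?_, ?_⟩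
    · rw [e]; exact h
    · simp only [inv_left]
      rcases hw'' with h | h
      · simp [h, hw']
      · simp only [Pi.inv_apply, h, hw']
    · rcases hw'' with h | h <;> simp [h, b0_inv]

theorem AE_le : AE ≤ E := fun _ hw => K_le_V hw.1
theorem BE_le : BE ≤ E := fun _ hw => hw.1

open Classical in
/-- Splitting of `V`. -/
theorem V_split (φ : Fn) (hφ : φ ∈ V) :
    ∃ κ ∈ K, ∃ ψ ∈ V, (∀ x, ψ (b0 * x) = ψ x) ∧ φ = κ * ψ := by
  let κ : Fn := fun x => if x.right = 1 then 1 else φ x * φ (b0 * x)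
  have hκ : κ ∈ K := by
    rw [mem_K]
    intro a ha x
    have ha' : a.right = 1 := ha
    have hk := (mem_K _).1 ((mem_V φ).1 hφ b0 b0_mem) a ha x
    simp only [Tm_apply] at hk
    by_cases hx : x.right = 1
    · simp [κ, hx, ha', pow_right]
    · simp only [κ, hx, ha', pow_right, mul_right, one_mul, one_pow, if_false]
      exact hk
  refine ⟨κ, hκ, κ⁻¹ * φ, V.mul_mem (V.inv_mem (K_le_V hκ)) hφ, fun x => ?_, by simp⟩
  simp only [Pi.mul_apply, Pi.inv_apply]
  have hb : (b0 * x).right = sg * x.right := rfl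
  rcases C2_cases x.right with h | h
  · have h1 : ¬ ((b0 * x).right = 1) := by rw [hb, h]; decide
    simp only [κ, h, h1, if_true, if_false]
    rw [← mul_assoc b0, b0_sq, one_mul, mul_inv_rev]
    simp only [inv_one, one_mul, mul_assoc, inv_mul_cancel, mul_one]
    exact inv_eq_of_mul_eq_one_left (C2_sq _)
  · have h1 : (b0 * x).right = 1 := by rw [hb, h]; decide
    have h2 : ¬ (x.right = 1) := by rw [h]; decide
    simp only [κ, h1, h2, if_true, if_false]
    rw [mul_inv_rev, mul_assoc, inv_mul_cancel, mul_one, inv_one, one_mul]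
    exact (inv_eq_of_mul_eq_one_left (C2_sq _)).symm

theorem E_factor (w : C2 ≀ᵣ G0) (hw : w ∈ E) : ∃ x ∈ AE, ∃ y ∈ BE, w = x * y := by
  obtain ⟨a, ha, e, he, hae⟩ : ∃ a ∈ A0, ∃ e : G0, (e = 1 ∨ e = b0) ∧ w.right = a * e := by
    rcases C2_cases w.right.right with h | h
    · exact ⟨w.right, h, 1, Or.inl rfl, by simp⟩
    · refine ⟨w.right * b0, ?_, b0, Or.inr rfl, ?_⟩
      · rw [mem_A0, mul_right, h]; rfl
      · rw [mul_assoc, b0_sq, mul_one]
  obtain ⟨κ, hκ, ψ, hψ, hb, hφ⟩ := V_split _ (V_sh a⁻¹ _ hw)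
  refine ⟨⟨sh a κ, a⟩, ⟨K_sh a κ hκ, ha⟩, ⟨ψ, e⟩, ⟨hψ, hb, he⟩, ?_⟩
  apply RegularWreathProduct.ext
  · funext x
    have := congrFun hφ (a⁻¹ * x)
    simp only [sh, MonoidHom.coe_mk, OneHom.coe_mk, inv_inv, mul_inv_cancel_left,
      Pi.mul_apply] at this
    rw [this]
    rfl
  · exact hae

theorem AE_pow (w : C2 ≀ᵣ G0) (hw : w ∈ AE) : w ^ 4 = 1 := by
  have h1 := (mem_K _).1 hw.1 w.right⁻¹ ((A0).inv_mem hw.2)
  have hr : w.right ^ 4 = 1 := by
    have h2 : w.right.right = 1 := hw.2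
    apply RegularWreathProduct.ext
    · funext x
      rw [pow_left_of_right_one _ h2]
      exact C4_pow _
    · rw [pow_right, h2, one_pow]; rfl
  apply RegularWreathProduct.ext
  · funext x
    have h3 := h1 x
    rw [pow_succ, pow_succ, pow_two]
    simp only [mul_left, mul_right, Pi.mul_apply]
    have e1 : (w.right * w.right)⁻¹ = w.right⁻¹ ^ 2 := by rw [mul_inv_rev, pow_two]
    have e2 : (w.right * w.right * w.right)⁻¹ = w.right⁻¹ ^ 3 := by
      rw [mul_inv_rev, mul_inv_rev, pow_succ, pow_two, mul_assoc]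
    rw [e1, e2, h3]
    rfl
  · rw [pow_right, hr]; rfl

theorem BE_pow (w : C2 ≀ᵣ G0) (hw : w ∈ BE) : w ^ 2 = 1 := by
  obtain ⟨_, h2, h3⟩ := hw
  rw [pow_two]
  apply RegularWreathProduct.ext
  · funext x
    simp only [mul_left, Pi.mul_apply]
    have : w.left (w.right⁻¹ * x) = w.left x := by
      rcases h3 with h | h
      · simp [h]
      · rw [h, b0_inv, h2]
    rw [this, C2_sq]
    rfl
  · rw [mul_right]
    rcases h3 with h | h
    · simp [h]
    · rw [h, b0_sq]; rfl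

theorem G0_pow (g : G0) : g ^ 8 = 1 := by
  have h1 : (g ^ 2).right = 1 := by rw [pow_right, pow_two]; exact C2_sq _
  rw [show (8 : ℕ) = 2 * 4 by norm_num, pow_mul]
  apply RegularWreathProduct.ext
  · funext x
    rw [pow_left_of_right_one _ h1]
    exact C4_pow _
  · rw [pow_right, h1, one_pow]; rfl

theorem W_pow (w : C2 ≀ᵣ G0) : w ^ 16 = 1 := by
  have h1 : (w ^ 8).right = 1 := by rw [pow_right]; exact G0_pow _
  rw [show (16 : ℕ) = 8 * 2 by norm_num, pow_mul]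
  apply RegularWreathProduct.ext
  · funext x
    rw [pow_left_of_right_one _ h1, pow_two]
    exact C2_sq _
  · rw [pow_right, h1, one_pow]; rfl

/-- The second binary digit. -/
def dg (u : C4) : ZMod 2 := if (Multiplicative.toAdd u).val < 2 then 0 else 1

/-- The special function. -/
def ph : Fn := fun x => Multiplicative.ofAdd (dg (x.left 1) * dg (x.left sg))

/-- The special element of `C₄ ≀ C₂` of order `8`. -/
def g0 : G0 := ⟨fun s => if s = 1 then Multiplicative.ofAdd 1 else 1, sg⟩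

theorem ph_key : ∀ t i j k l : C4,
    (dg k * dg l + dg (t * k) * dg (t⁻¹ * l)) +
    (dg (i * k) * dg (j * l) + dg (t * (i * k)) * dg (t⁻¹ * (j * l))) +
    (dg (i ^ 2 * k) * dg (j ^ 2 * l) + dg (t * (i ^ 2 * k)) * dg (t⁻¹ * (j ^ 2 * l))) +
    (dg (i ^ 3 * k) * dg (j ^ 3 * l) + dg (t * (i ^ 3 * k)) * dg (t⁻¹ * (j ^ 3 * l))) = 0 := by
  decide +kernel

theorem A0_mul_left (a x : G0) (ha : a ∈ A0) (m : ℕ) (y : C2) :
    (a ^ m * x).left y = (a.left y) ^ m * x.left y := by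
  have ha' : a.right = 1 := ha
  rw [mul_left, Pi.mul_apply, pow_left_of_right_one _ ha', pow_right, ha', one_pow, inv_one,
    one_mul]

theorem Tm_ph (h : G0) (hh : h ∈ H0) : ∃ t : C4, ∀ y : G0, Tm h ph y =
    Multiplicative.ofAdd (dg (y.left 1) * dg (y.left sg) +
      dg (t * y.left 1) * dg (t⁻¹ * y.left sg)) := by
  have h1 : h.left 1 * h.left sg = 1 := hh
  have h2 : h.left sg = (h.left 1)⁻¹ := (inv_eq_of_mul_eq_one_right h1).symm
  rcases C2_cases h.right with hr | hr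
  · refine ⟨h.left 1, fun y => ?_⟩
    rw [Tm_apply]
    simp only [ph, mul_left, Pi.mul_apply, hr, inv_one, one_mul, h2]
    rfl
  · refine ⟨(h.left 1)⁻¹, fun y => ?_⟩
    have e1 : sg⁻¹ * 1 = sg := by decide
    have e2 : sg⁻¹ * sg = 1 := by decide
    rw [Tm_apply]
    simp only [ph, mul_left, Pi.mul_apply, hr, e1, e2, h2, inv_inv]
    rw [mul_comm (dg ((h.left 1)⁻¹ * y.left 1))]
    rfl

theorem ph_mem : ph ∈ V := by
  rw [mem_V]
  intro h hh
  obtain ⟨t, ht⟩ := Tm_ph h hh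
  rw [mem_K]
  intro a ha x
  have e1 : ∀ y, (a * x).left y = a.left y * x.left y := by
    intro y
    have := A0_mul_left a x ha 1 y
    simpa using this
  rw [ht, ht, ht, ht]
  simp only [e1, A0_mul_left a x ha]
  rw [← ofAdd_add, ← ofAdd_add, ← ofAdd_add, ph_key, ofAdd_zero]

/-- The element of order `16`. -/
def w0 : C2 ≀ᵣ G0 := ⟨ph, g0⟩

theorem w0_pow : (w0 ^ 8).left 1 = Multiplicative.ofAdd 1 := by
  decide +kernel

theorem ofAdd_one_ne : ¬ ((1 : C2) = Multiplicative.ofAdd 1) := by decide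

theorem w0_order : orderOf w0 = 16 := by
  have hne : ¬ (w0 ^ 8 = 1) := by
    intro h
    have h1 := w0_pow
    rw [h] at h1
    exact ofAdd_one_ne h1
  have h := orderOf_eq_prime_pow (x := w0) (p := 2) (n := 3)
    (by rw [show (2 : ℕ) ^ 3 = 8 by norm_num]; exact hne)
    (by rw [show (2 : ℕ) ^ (3 + 1) = 16 by norm_num]; exact W_pow w0)
  rw [h]; norm_num

/-- The base element of order `4`. -/
def a1 : G0 := ⟨fun s => if s = 1 then Multiplicative.ofAdd 1 else 1, 1⟩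

/-- The same element in the big group. -/
def a2 : C2 ≀ᵣ G0 := ⟨1, a1⟩

/-- The involution in the big group. -/
def b2 : C2 ≀ᵣ G0 := ⟨1, b0⟩

theorem a2_mem : a2 ∈ AE := ⟨K.one_mem, rfl⟩
theorem b2_mem : b2 ∈ BE := ⟨V.one_mem, fun _ => rfl, Or.inr rfl⟩

theorem a2_sq : (a2 ^ 2).right.left 1 = Multiplicative.ofAdd 2 := by
  decide +kernel

theorem ofAdd_two_ne : ¬ ((1 : C4) = Multiplicative.ofAdd 2) := by decide

theorem a2_order : orderOf a2 = 4 := by
  have hne : ¬ (a2 ^ 2 = 1) := by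
    intro h
    have h1 := a2_sq
    rw [h] at h1
    exact ofAdd_two_ne h1
  have h := orderOf_eq_prime_pow (x := a2) (p := 2) (n := 1)
    (by rw [show (2 : ℕ) ^ 1 = 2 by norm_num]; exact hne)
    (by rw [show (2 : ℕ) ^ (1 + 1) = 4 by norm_num]; exact AE_pow a2 a2_mem)
  rw [h]; norm_num

theorem b2_order : orderOf b2 = 2 := by
  have : Fact (Nat.Prime 2) := ⟨Nat.prime_two⟩
  apply orderOf_eq_prime (BE_pow b2 b2_mem)
  intro h
  have h1 : b2.right.right = (1 : C2 ≀ᵣ G0).right.right := by rw [h]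
  exact ofAdd_one_ne h1.symm

theorem good_base : Good 4 2 16 := by
  refine ⟨E, inferInstance, inferInstance, AE.subgroupOf E, BE.subgroupOf E, ?_, ?_, ⟨?_, ?_⟩,
    ⟨?_, ?_⟩, ⟨?_, ?_⟩⟩
  · intro g
    refine ⟨4, ?_⟩
    apply Subtype.ext
    simpa using W_pow g.1
  · rintro ⟨w, hw⟩
    obtain ⟨x, hx, y, hy, h⟩ := E_factor w hw
    exact ⟨⟨x, AE_le hx⟩, hx, ⟨y, BE_le hy⟩, hy, Subtype.ext h⟩
  · rintro ⟨x, hx⟩ hx'
    exact Subtype.ext (AE_pow x hx')
  · exact ⟨⟨a2, AE_le a2_mem⟩, a2_mem, (Subgroup.orderOf_mk _ _).trans a2_order⟩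
  · rintro ⟨x, hx⟩ hx'
    exact Subtype.ext (BE_pow x hx')
  · exact ⟨⟨b2, BE_le b2_mem⟩, b2_mem, (Subgroup.orderOf_mk _ _).trans b2_order⟩
  · intro x
    exact Subtype.ext (W_pow x.1)
  · exact ⟨⟨w0, ph_mem⟩, (Subgroup.orderOf_mk _ _).trans w0_order⟩

theorem good_one : Good 1 1 1 :=
  ⟨PUnit, inferInstance, inferInstance, ⊤, ⊤, fun _ => ⟨0, rfl⟩,
    fun _ => ⟨1, trivial, 1, trivial, rfl⟩, ⟨fun _ _ => rfl, 1, trivial, orderOf_one⟩,
    ⟨fun _ _ => rfl, 1, trivial, orderOf_one⟩, fun _ => rfl, 1, orderOf_one⟩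

theorem good_pow (n : ℕ) : Good (4 ^ n) (2 ^ n) (16 ^ n) := by
  induction n with
  | zero => simpa using good_one
  | succ n ih =>
    rw [pow_succ, pow_succ, pow_succ]
    exact good_mul ih good_base

theorem exponent_eq {G : Type} [Group G] [Finite G] (A : Subgroup G) (m : ℕ)
    (h : (∀ x ∈ A, x ^ m = 1) ∧ ∃ x ∈ A, orderOf x = m) : Monoid.exponent A = m := by
  obtain ⟨h1, x, hx, hm⟩ := h
  apply Nat.dvd_antisymm
  · apply Monoid.exponent_dvd_of_forall_pow_eq_one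
    rintro ⟨y, hy⟩
    exact Subtype.ext (h1 y hy)
  · have := Monoid.order_dvd_exponent (⟨x, hx⟩ : A)
    rwa [Subgroup.orderOf_mk, hm] at this

/-- For every `n` there is a finite `2`-group `G` which is the product `A B` of two subgroups of
exponents `exp A = 4 ^ n` and `exp B = 2 ^ n`, while `exp G = 16 ^ n = (exp A * exp B) ^ (4 / 3)`. -/
theorem result (n : ℕ) :
    ∃ (G : Type) (_ : Group G) (_ : Finite G) (A B : Subgroup G),
      IsPGroup 2 G ∧ (∀ g : G, ∃ a ∈ A, ∃ b ∈ B, g = a * b) ∧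
      Monoid.exponent A = 4 ^ n ∧ Monoid.exponent B = 2 ^ n ∧ Monoid.exponent G = 16 ^ n := by
  obtain ⟨G, _, _, A, B, hp, hf, hA, hB, hG⟩ := good_pow n
  refine ⟨G, inferInstance, inferInstance, A, B, hp, hf, exponent_eq A _ hA, exponent_eq B _ hB, ?_⟩
  apply Nat.dvd_antisymm
  · exact Monoid.exponent_dvd_of_forall_pow_eq_one hG.1
  · obtain ⟨x, hx⟩ := hG.2
    rw [← hx]
    exact Monoid.order_dvd_exponent x

end Pool.Agent.Results.MP_87fd0b_al.ExceedsProduct
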